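import Mathlib

set_option autoImplicit false

namespace Pool.Agent.H.MP_6c75e4_nt

open Polynomial Finset

noncomputable def sh : Module.End ℂ (ℕ → ℂ) := LinearMap.funLeft ℂ ℂ Nat.succ

lemma sh_pow (i : ℕ) (y : ℕ → ℂ) (n : ℕ) : (sh ^ i) y n = y (n + i) := by
  induction i generalizing n with
  | zero => rfl
  | succ i ih =>
    rw [pow_succ', Module.End.mul_apply]
    change (sh ^ i) y (n + 1) = _
    rw [ih]; congr 1; ring

lemma aeval_sh (Q : ℂ[X]) (y : ℕ → ℂ) (n : ℕ) :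
    aeval sh Q y n = ∑ i ∈ range (Q.natDegree + 1), Q.coeff i * y (n + i) := by
  rw [aeval_eq_sum_range, LinearMap.sum_apply, Finset.sum_apply]
  simp only [LinearMap.smul_apply, Pi.smul_apply, sh_pow, smul_eq_mul]

lemma lin_sh (z : ℂ) (y : ℕ → ℂ) (n : ℕ) : aeval sh (X - C z) y n = y (n + 1) - z * y n := by
  simp only [map_sub, aeval_X, aeval_C, LinearMap.sub_apply, Pi.sub_apply,
    Module.algebraMap_end_apply, Pi.smul_apply, smul_eq_mul]
  rfl

lemma kill (z : ℂ) (k : ℕ) : ∀ g : ℂ[X], g.degree < k →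
    aeval sh ((X - C z) ^ k) (fun n : ℕ => g.eval (n : ℂ) * z ^ n) = 0 := by
  induction k with
  | zero =>
    intro g hg
    have : g = 0 := by simpa using hg
    subst this
    funext n; simp
  | succ k ih =>
    intro g hg
    have h1 : aeval sh (X - C z) (fun n : ℕ => g.eval (n : ℂ) * z ^ n) =
        fun n : ℕ => (C z * (taylor 1 g - g)).eval (n : ℂ) * z ^ n := by
      funext n
      rw [lin_sh]
      simp only [eval_mul, eval_C, eval_sub, taylor_eval]
      push_cast; ring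
    rw [pow_succ, map_mul, Module.End.mul_apply, h1]
    apply ih
    by_cases h0 : g = 0
    · simp [h0]
    refine lt_of_le_of_lt ?_ (lt_of_lt_of_le (degree_sub_lt_left (degree_taylor g 1)
      (by simpa using h0) (leadingCoeff_taylor 1 g)) ?_)
    · rw [← smul_eq_C_mul]; exact degree_smul_le _ _
    · rw [degree_taylor, degree_eq_natDegree h0] at *
      exact_mod_cast Nat.lt_succ_iff.mp (by exact_mod_cast hg)

def Ex (y : ℕ → ℂ) : Prop := ∃ R : ℂ[X], R ≠ 0 ∧ (∀ z, R.IsRoot z → 1 < ‖z‖) ∧ aeval sh R y = 0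

lemma Ex.add {x y : ℕ → ℂ} (hx : Ex x) (hy : Ex y) : Ex (x + y) := by
  obtain ⟨R, h1, h2, h3⟩ := hx
  obtain ⟨S, h4, h5, h6⟩ := hy
  refine ⟨R * S, mul_ne_zero h1 h4, fun z hz => ?_, ?_⟩
  · rcases (root_mul.mp hz) with h | h
    exacts [h2 z h, h5 z h]
  · rw [map_add]
    conv_lhs => rw [mul_comm]; enter [2]; rw [mul_comm]
    rw [map_mul, map_mul, Module.End.mul_apply, Module.End.mul_apply, h3, h6]; simp

lemma Ex.smul {x : ℕ → ℂ} (hx : Ex x) (c : ℂ) : Ex (c • x) := by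
  obtain ⟨R, h1, h2, h3⟩ := hx
  exact ⟨R, h1, h2, by rw [map_smul, h3, smul_zero]⟩

lemma Ex.zero : Ex 0 := ⟨1, one_ne_zero, by simp, by simp⟩

lemma Ex.term {z : ℂ} (hz : 1 < ‖z‖) (g : ℂ[X]) : Ex fun n : ℕ => g.eval (n : ℂ) * z ^ n := by
  refine ⟨(X - C z) ^ (g.natDegree + 1), pow_ne_zero _ (X_sub_C_ne_zero z), fun w hw => ?_,
    kill z _ g (lt_of_le_of_lt degree_le_natDegree (by exact_mod_cast Nat.lt_succ_self _))⟩
  have : w - z = 0 := by simpa using hw
  rwa [sub_eq_zero.mp this]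

lemma Ex.sum {ι : Type} (s : Finset ι) (f : ι → ℕ → ℂ) (h : ∀ i ∈ s, Ex (f i)) :
    Ex (∑ i ∈ s, f i) :=
  Finset.sum_induction f Ex (fun _ _ => Ex.add) Ex.zero h

lemma Ex.eq_zero {y : ℕ → ℂ} (h : Ex y) (hb : ∃ B, ∀ n, ‖y n‖ ≤ B) : y = 0 := by
  obtain ⟨R, h1, h2, h3⟩ := h
  induction hd : R.natDegree generalizing R y with
  | zero =>
    rw [eq_C_of_natDegree_eq_zero hd] at h3 h1
    simp only [aeval_C, Module.algebraMap_end_apply, smul_eq_zero] at h3
    exact h3.resolve_left fun h => h1 (by rw [h, map_zero])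
  | succ d ih =>
    obtain ⟨z, hz⟩ := IsAlgClosed.exists_root R (by
      rw [degree_eq_natDegree h1, hd]; exact_mod_cast Nat.succ_ne_zero d)
    obtain ⟨S, rfl⟩ := dvd_iff_isRoot.mpr hz
    have hS : S ≠ 0 := right_ne_zero_of_mul h1
    have hz1 := h2 z hz
    obtain ⟨B, hB⟩ := hb
    have h4 : aeval sh (X - C z) y = 0 := by
      refine ih ⟨B + ‖z‖ * B, fun n => ?_⟩ S hS (fun w hw => h2 w (root_mul.mpr (Or.inr hw))) ?_ ?_
      · rw [lin_sh]
        refine (norm_sub_le _ _).trans (add_le_add (hB _) ?_)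
        rw [norm_mul]; exact mul_le_mul_of_nonneg_left (hB _) (norm_nonneg _)
      · rw [← Module.End.mul_apply, ← map_mul, mul_comm, h3]
      · rw [natDegree_mul (X_sub_C_ne_zero z) hS, natDegree_X_sub_C] at hd; omega
    have h5 : ∀ n m, y (n + m) = z ^ m * y n := by
      intro n m
      induction m with
      | zero => simp
      | succ m ihm =>
        have := congrFun h4 (n + m)
        rw [lin_sh, Pi.zero_apply, sub_eq_zero] at this
        rw [← add_assoc, this, ihm]; ring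
    funext n
    by_contra h6
    have h7 : 0 < ‖y n‖ := norm_pos_iff.mpr h6
    obtain ⟨m, hm⟩ := pow_unbounded_of_one_lt (B / ‖y n‖) hz1
    have := hB (n + m)
    rw [h5, norm_mul, norm_pow] at this
    rw [div_lt_iff₀ h7] at hm
    linarith

noncomputable def seq (S : Finset ℂ) (g : ℂ → ℂ[X]) (n : ℕ) : ℝ :=
  (∑ z ∈ S, (g z).eval (n : ℂ) * z ^ n).re

lemma Ex_seq {S : Finset ℂ} (hS : ∀ z ∈ S, 1 < ‖z‖) (g : ℂ → ℂ[X]) :
    Ex fun n => (seq S g n : ℂ) := by
  have h1 := (Ex.sum S (fun z (n : ℕ) => (g z).eval (n : ℂ) * z ^ n)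
    fun z hz => Ex.term (hS z hz) _).add (Ex.sum S (fun z (n : ℕ) =>
      ((g z).map (starRingEnd ℂ)).eval (n : ℂ) * (starRingEnd ℂ z) ^ n)
    fun z hz => Ex.term (by simpa using hS z hz) _)
  convert h1.smul (1 / 2) using 1
  funext n
  rw [seq, Complex.re_eq_add_conj]
  simp only [Pi.smul_apply, Pi.add_apply, Finset.sum_apply, map_sum, map_mul, map_pow, smul_eq_mul]
  have : ∀ z, ((g z).map (starRingEnd ℂ)).eval (n : ℂ) = starRingEnd ℂ ((g z).eval (n : ℂ)) := by
    intro z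
    rw [eval_map, ← eval₂_at_apply]; simp
  simp only [this]; ring

lemma rec_seq {S : Finset ℂ} {P : ℤ[X]} (hP : P.Monic) (hS : ∀ z ∈ S, aeval z P = 0) {k : ℕ}
    {g : ℂ → ℂ[X]} (hg : ∀ z ∈ S, (g z).degree ≤ k) (n : ℕ) :
    ∑ i ∈ range ((P ^ (k + 1)).natDegree + 1), ((P ^ (k + 1)).coeff i : ℝ) * seq S g (n + i) = 0 := by
  have h1 : aeval sh ((P ^ (k + 1)).map (Int.castRingHom ℂ))
      (∑ z ∈ S, fun n : ℕ => (g z).eval (n : ℂ) * z ^ n) = 0 := by
    rw [map_sum]
    refine Finset.sum_eq_zero fun z hz => ?_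
    have h2 : (P.map (Int.castRingHom ℂ)).IsRoot z := by
      rw [IsRoot, eval_map, ← algebraMap_int_eq, ← aeval_def]; exact hS z hz
    obtain ⟨T, hT⟩ := dvd_iff_isRoot.mpr h2
    rw [Polynomial.map_pow, hT, mul_pow, mul_comm, map_mul, Module.End.mul_apply,
      kill z (k + 1) _ (lt_of_le_of_lt (hg z hz) (by exact_mod_cast Nat.lt_succ_self k)), map_zero]
  have h2 := congrArg Complex.re (congrFun h1 n)
  rw [aeval_sh, (hP.pow _).natDegree_map, Complex.re_sum] at h2
  refine Eq.trans (Finset.sum_congr rfl fun i _ => ?_) h2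
  rw [coeff_map, Finset.sum_apply, seq, eq_intCast, ← Complex.ofReal_intCast, Complex.re_ofReal_mul]

lemma rec_unique {Q : ℤ[X]} (hQ : Q.Monic) {a b : ℕ → ℤ} {n₀ : ℕ}
    (ha : ∀ n ≥ n₀, ∑ i ∈ range (Q.natDegree + 1), Q.coeff i * a (n + i) = 0)
    (hb : ∀ n ≥ n₀, ∑ i ∈ range (Q.natDegree + 1), Q.coeff i * b (n + i) = 0)
    (h : ∀ i < Q.natDegree, a (n₀ + i) = b (n₀ + i)) (i : ℕ) : a (n₀ + i) = b (n₀ + i) := by
  induction i using Nat.strong_induction_on with
  | _ i ih =>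
    by_cases hi : i < Q.natDegree
    · exact h i hi
    obtain ⟨m, rfl⟩ := Nat.exists_eq_add_of_le' (not_lt.mp hi)
    have h1 := ha (n₀ + m) (by omega)
    have h2 := hb (n₀ + m) (by omega)
    rw [sum_range_succ, hQ.coeff_natDegree, one_mul, add_assoc] at h1 h2
    have h3 : ∑ i ∈ range Q.natDegree, Q.coeff i * a (n₀ + m + i) =
        ∑ i ∈ range Q.natDegree, Q.coeff i * b (n₀ + m + i) :=
      sum_congr rfl fun j hj => by
        rw [add_assoc, ih (m + j) (by have := mem_range.mp hj; omega)]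
    linarith

open Filter in
lemma countable_small {S : Finset ℂ} {P : ℤ[X]} (hP : P.Monic) (hS : ∀ z ∈ S, aeval z P = 0)
    (hS' : ∀ z ∈ S, 1 < ‖z‖) (k : ℕ) : ∃ c : ℝ, 0 < c ∧
    {v : ℝ | v < c ∧ ∃ g : ℂ → ℂ[X], (∀ z ∈ S, (g z).degree ≤ k) ∧
      v = limsup (fun n => |seq S g n - round (seq S g n)|) atTop}.Countable := by
  set Q := P ^ (k + 1) with hQ
  have hQm : Q.Monic := hP.pow _
  set Λ : ℝ := ∑ i ∈ range (Q.natDegree + 1), |(Q.coeff i : ℝ)| with hΛ
  have hΛ0 : 0 ≤ Λ := sum_nonneg fun _ _ => abs_nonneg _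
  refine ⟨1 / (Λ + 1), by positivity, ?_⟩
  let T : ℕ × (Fin Q.natDegree → ℤ) → Set ℝ := fun w =>
    {v : ℝ | ∃ g : ℂ → ℂ[X], v = limsup (fun n => |seq S g n - round (seq S g n)|) atTop ∧
      (∀ n ≥ w.1, ∑ i ∈ range (Q.natDegree + 1), Q.coeff i * round (seq S g (n + i)) = 0) ∧
      ∀ i : Fin Q.natDegree, round (seq S g (w.1 + i)) = w.2 i}
  refine (Set.countable_iUnion (t := T) fun w => Set.Subsingleton.countable ?_).mono ?_
  · rintro _ ⟨g, rfl, h1, h2⟩ _ ⟨g', rfl, h3, h4⟩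
    have h5 := rec_unique hQm (a := fun n => round (seq S g n)) (b := fun n => round (seq S g' n))
      h1 h3 fun i hi => (h2 ⟨i, hi⟩).trans (h4 ⟨i, hi⟩).symm
    have h6 := ((Ex_seq hS' g).add ((Ex_seq hS' g').smul (-1))).eq_zero
      ⟨1 + ∑ j ∈ range w.1, |seq S g j - seq S g' j|, fun n => by
        have h7 : ‖((fun n => (seq S g n : ℂ)) + (-1 : ℂ) • fun n => (seq S g' n : ℂ)) n‖ =
            |seq S g n - seq S g' n| := by
          rw [← Real.norm_eq_abs, ← Complex.norm_real]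
          congr 1; simp [sub_eq_add_neg]
        rw [h7]
        have h8 : 0 ≤ ∑ j ∈ range w.1, |seq S g j - seq S g' j| :=
          sum_nonneg fun _ _ => abs_nonneg _
        by_cases hn : n < w.1
        · have := single_le_sum (f := fun j => |seq S g j - seq S g' j|)
            (fun _ _ => abs_nonneg _) (mem_range.mpr hn)
          linarith
        · obtain ⟨m, rfl⟩ := Nat.exists_eq_add_of_le (not_lt.mp hn)
          have a1 := abs_le.mp (abs_sub_round (seq S g (w.1 + m)))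
          have a2 := abs_le.mp (abs_sub_round (seq S g' (w.1 + m)))
          have a3 : (round (seq S g (w.1 + m)) : ℝ) = round (seq S g' (w.1 + m)) := by
            exact_mod_cast h5 m
          rw [abs_le]; constructor <;> linarith [a1.1, a1.2, a2.1, a2.2]⟩
    have h9 : seq S g = seq S g' := by
      funext n
      have := congrFun h6 n
      simp only [Pi.add_apply, Pi.smul_apply, smul_eq_mul, Pi.zero_apply] at this
      exact_mod_cast (by linear_combination this : (seq S g n : ℂ) = seq S g' n)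
    rw [h9]
  · rintro v ⟨h1, g, hg, rfl⟩
    obtain ⟨n₀, h2⟩ := eventually_atTop.mp (eventually_lt_of_limsup_lt h1
      (isBoundedUnder_of ⟨1 / 2, fun n => abs_sub_round _⟩))
    refine Set.mem_iUnion.mpr ⟨(n₀, fun i => round (seq S g (n₀ + i))), g, rfl, fun n hn => ?_,
      fun _ => rfl⟩
    have h3 := rec_seq hP hS hg n
    rw [← hQ] at h3
    have h4 : ((∑ i ∈ range (Q.natDegree + 1), Q.coeff i * round (seq S g (n + i)) : ℤ) : ℝ) =
        -∑ i ∈ range (Q.natDegree + 1),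
          (Q.coeff i : ℝ) * (seq S g (n + i) - round (seq S g (n + i))) := by
      simp only [mul_sub, sum_sub_distrib, h3]; push_cast; ring
    have h5 : |∑ i ∈ range (Q.natDegree + 1),
          (Q.coeff i : ℝ) * (seq S g (n + i) - round (seq S g (n + i)))| ≤ Λ * (1 / (Λ + 1)) := by
      rw [hΛ, sum_mul]
      refine (abs_sum_le_sum_abs _ _).trans (sum_le_sum fun i _ => ?_)
      rw [abs_mul]
      exact mul_le_mul_of_nonneg_left (h2 _ (by omega)).le (abs_nonneg _)
    have h6 : Λ * (1 / (Λ + 1)) < 1 := by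
      rw [mul_one_div, div_lt_one (by positivity)]; linarith
    rw [← abs_neg, ← h4, ← Int.cast_abs] at h5
    have h7 : |∑ i ∈ range (Q.natDegree + 1), Q.coeff i * round (seq S g (n + i))| < 1 := by
      exact_mod_cast h5.trans_lt h6
    exact Int.abs_lt_one_iff.mp h7

end Pool.Agent.H.MP_6c75e4_nt
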